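import Pool.Agent.R601.KL.Defs

/-!
# The group acting on the atoms
-/

set_option autoImplicit false

namespace Pool.Agent.R601.KL

open Pool.Agent.R598.FM

theorem rel_refl (n : ℕ) (a : At) : rel n a a := ⟨rfl, fun i _ => by simp⟩

theorem rel_symm {n : ℕ} {a b : At} (h : rel n a b) : rel n b a :=
  ⟨h.1.symm, fun i hi => by
    have h1 := h.2 i hi
    rwa [← neg_sub, dvd_neg] at h1⟩

theorem rel_comm {n : ℕ} {a b : At} : rel n a b ↔ rel n b a := ⟨rel_symm, rel_symm⟩

theorem rel_trans {n : ℕ} {a b c : At} (h : rel n a b) (h' : rel n b c) : rel n a c :=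
  ⟨h.1.trans h'.1, fun i hi => by
    have h1 := dvd_add (h.2 i hi) (h'.2 i hi)
    rwa [sub_add_sub_cancel] at h1⟩

theorem rel_mono {n m : ℕ} (hnm : n ≤ m) {a b : At} (h : rel m a b) : rel n a b :=
  ⟨h.1, fun i hi => (pow_dvd_pow 2 (Nat.sub_le_sub_right hnm i)).trans (h.2 i (by omega))⟩

theorem int_eq_zero {x : ℤ} (h : ∀ n : ℕ, (2 : ℤ) ^ n ∣ x) : x = 0 := by
  by_contra hx
  have h1 := Int.le_of_dvd (abs_pos.2 hx) ((dvd_abs _ _).2 (h (x.natAbs)))
  have h2 : (x.natAbs : ℤ) < 2 ^ x.natAbs := by exact_mod_cast Nat.lt_two_pow_self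
  rw [Int.abs_eq_natAbs] at h1
  omega

theorem rel_eq {a b : At} (h : ∀ n, rel n a b) : a = b := by
  refine Prod.ext (h 0).1 (funext fun i => ?_)
  refine sub_eq_zero.1 (int_eq_zero fun n => ?_)
  have h1 := (h (n + i + 1)).2 i (by omega)
  exact (pow_dvd_pow 2 (by omega)).trans h1

theorem agree_rel {n : ℕ} {a b : At} (h : a.1 = b.1) (h' : ∀ j < n, a.2 j = b.2 j) : rel n a b :=
  ⟨h, fun i hi => by rw [h' i hi, sub_self]; exact dvd_zero _⟩

/-! ### Shifts -/

open Classical in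
/-- Add `t` at `n` for the elements that are related to `a` by `rel n`. -/
noncomputable def sh (n : ℕ) (a : At) (t : ℤ) (b : At) : At :=
  if rel n b a then (b.1, Function.update b.2 n (b.2 n + t)) else b

section

variable {n : ℕ} {a : At} {t : ℤ}

theorem sh_pos {b : At} (h : rel n b a) : sh n a t b = (b.1, Function.update b.2 n (b.2 n + t)) := by
  unfold sh
  rw [if_pos h]

theorem sh_neg {b : At} (h : ¬ rel n b a) : sh n a t b = b := by
  unfold sh
  rw [if_neg h]

theorem sh_fst (b : At) : (sh n a t b).1 = b.1 := by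
  by_cases h : rel n b a
  · rw [sh_pos h]
  · rw [sh_neg h]

theorem sh_ne (b : At) {j : ℕ} (hj : j ≠ n) : (sh n a t b).2 j = b.2 j := by
  by_cases h : rel n b a
  · rw [sh_pos h]
    exact Function.update_of_ne hj _ _
  · rw [sh_neg h]

theorem sh_self {b : At} (h : rel n b a) : (sh n a t b).2 n = b.2 n + t := by
  rw [sh_pos h]
  exact Function.update_self _ _ _

theorem rel_sh_iff {m : ℕ} (hm : m ≤ n) (b c : At) :
    rel m (sh n a t b) (sh n a t c) ↔ rel m b c := by
  unfold rel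
  rw [sh_fst, sh_fst]
  refine and_congr_right fun _ => ?_
  refine forall_congr' fun i => ?_
  refine imp_congr_right fun hi => ?_
  rw [sh_ne b (by omega), sh_ne c (by omega)]

theorem rel_sh_self (b : At) : rel n (sh n a t b) b :=
  ⟨sh_fst b, fun i hi => by rw [sh_ne b (by omega), sub_self]; exact dvd_zero _⟩

theorem sh_sub {b c : At} (h : rel n b c) (i : ℕ) :
    (sh n a t b).2 i - (sh n a t c).2 i = b.2 i - c.2 i := by
  by_cases hb : rel n b a
  · have hc : rel n c a := rel_trans (rel_symm h) hb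
    by_cases hi : i = n
    · subst hi
      rw [sh_self hb, sh_self hc]
      ring
    · rw [sh_ne b hi, sh_ne c hi]
  · have hc : ¬ rel n c a := fun hc => hb (rel_trans h hc)
    rw [sh_neg hb, sh_neg hc]

theorem rel_sh (m : ℕ) (b c : At) : rel m (sh n a t b) (sh n a t c) ↔ rel m b c := by
  rcases le_total m n with hm | hm
  · exact rel_sh_iff hm b c
  · by_cases h : rel n b c
    · unfold rel
      rw [sh_fst, sh_fst]
      refine and_congr_right fun _ => ?_
      refine forall_congr' fun i => ?_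
      rw [sh_sub h i]
    · exact iff_of_false (fun h1 => h ((rel_sh_iff le_rfl b c).1 (rel_mono hm h1)))
        fun h1 => h (rel_mono hm h1)

theorem dif_sh (i : ℕ) (k : ℤ) (b c : At) :
    Dif i k (sh n a t b) (sh n a t c) ↔ Dif i k b c := by
  unfold Dif
  rw [sh_fst, sh_fst]
  refine and_congr_right fun h1 => ?_
  by_cases hi : i < n
  · rw [sh_ne b (by omega), sh_ne c (by omega)]
    refine and_congr_left fun _ => ?_
    refine forall_congr' fun j => ?_
    refine imp_congr_right fun hj => ?_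
    rw [sh_ne b (by omega), sh_ne c (by omega)]
  · by_cases h : rel n b c
    · rw [sh_sub h i]
      refine and_congr_left fun _ => ?_
      refine forall_congr' fun j => ?_
      refine imp_congr_right fun hj => ?_
      rw [← sub_eq_zero, sh_sub h j, sub_eq_zero]
    · refine iff_of_false (fun h2 => h ?_) fun h2 => h ?_
      · refine agree_rel h1 fun j hj => ?_
        have h3 := h2.1 j (by omega)
        rwa [sh_ne b (by omega), sh_ne c (by omega)] at h3
      · exact agree_rel h1 fun j hj => h2.1 j (by omega)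

theorem sh_sh (b : At) (s : ℤ) : sh n a s (sh n a t b) = sh n a (s + t) b := by
  by_cases h : rel n b a
  · have h' : rel n (sh n a t b) a := rel_trans (rel_sh_self b) h
    refine Prod.ext ?_ (funext fun i => ?_)
    · rw [sh_fst, sh_fst, sh_fst]
    · by_cases hi : i = n
      · subst hi
        rw [sh_self h', sh_self h, sh_self h]
        ring
      · rw [sh_ne _ hi, sh_ne _ hi, sh_ne _ hi]
  · rw [sh_neg (b := b) h, sh_neg h, sh_neg h]

theorem sh_zero (b : At) : sh n a 0 b = b := by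
  by_cases h : rel n b a
  · rw [sh_pos h]
    refine Prod.ext rfl (funext fun i => ?_)
    by_cases hi : i = n
    · subst hi
      simp
    · exact Function.update_of_ne hi _ _
  · rw [sh_neg h]

variable (n a t) in
/-- The shift as a permutation. -/
noncomputable def shP : Equiv.Perm At where
  toFun := sh n a t
  invFun := sh n a (-t)
  left_inv b := by rw [sh_sh, neg_add_cancel, sh_zero]
  right_inv b := by rw [sh_sh, add_neg_cancel, sh_zero]

theorem shP_apply (b : At) : shP n a t b = sh n a t b := rfl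

theorem shP_mem : shP n a t ∈ G :=
  ⟨fun b => sh_fst b, fun m b c => rel_sh m b c, fun i k b c => dif_sh i k b c⟩

end

/-! ### The coordinates of the elements of an orbit -/

theorem G_fst {g : Equiv.Perm At} (hg : g ∈ G) (a : At) : (g a).1 = a.1 := hg.1 a

theorem G_rel {g : Equiv.Perm At} (hg : g ∈ G) {n : ℕ} {a b : At} :
    rel n (g a) (g b) ↔ rel n a b := hg.2.1 n a b

theorem G_dif {g : Equiv.Perm At} (hg : g ∈ G) {i : ℕ} {a b : At} (h : a.1 = b.1)
    (h' : ∀ j < i, a.2 j = b.2 j) : (∀ j < i, (g a).2 j = (g b).2 j) ∧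
      (g a).2 i - (g b).2 i = a.2 i - b.2 i := by
  have h1 : Dif i (a.2 i - b.2 i) (g a) (g b) := (hg.2.2 i _ a b).2 ⟨h, h', rfl⟩
  exact h1.2

/-- The powers of a group element that moves `b` first at `i`. -/
theorem pow_coord {g : Equiv.Perm At} (hg : g ∈ G) {b : At} {i : ℕ} {t : ℤ}
    (h1 : ∀ j < i, (g b).2 j = b.2 j) (h2 : (g b).2 i = b.2 i + t) (w : ℕ) :
    ((g ^ w) b).1 = b.1 ∧ (∀ j < i, ((g ^ w) b).2 j = b.2 j) ∧
      ((g ^ w) b).2 i = b.2 i + w * t := by
  induction w with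
  | zero => simp
  | succ w ih =>
    obtain ⟨h3, h4, h5⟩ := ih
    rw [pow_succ', Equiv.Perm.mul_apply]
    obtain ⟨h6, h7⟩ := G_dif hg h3 h4
    refine ⟨(G_fst hg _).trans h3, fun j hj => (h6 j hj).trans (h1 j hj), ?_⟩
    have h8 : ((w + 1 : ℕ) : ℤ) * t = w * t + t := by
      rw [Nat.cast_succ]
      ring
    rw [h8]
    linarith

/-- The sets that are used to show that some sets are not compact. -/
def Nl (b : At) (i : ℕ) (t q : ℤ) (l : ℕ) (a : At) : Prop :=
  a.1 = b.1 ∧ (∀ j < i, (2 : ℤ) ^ (i + l - j) ∣ a.2 j - b.2 j) ∧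
    (2 : ℤ) ^ l ∣ q * (a.2 i - b.2 i) - t

theorem Nl_rel {b : At} {i : ℕ} {t q : ℤ} {l : ℕ} {a c : At} (h : rel (i + l) a c)
    (ha : Nl b i t q l a) : Nl b i t q l c := by
  obtain ⟨h1, h2, h3⟩ := ha
  refine ⟨h.1.symm.trans h1, fun j hj => ?_, ?_⟩
  · have h4 := dvd_sub (h2 j hj) (h.2 j (by omega))
    rwa [show a.2 j - b.2 j - (a.2 j - c.2 j) = c.2 j - b.2 j by ring] at h4
  · rcases Nat.eq_zero_or_pos l with rfl | hl
    · rw [pow_zero]
      exact one_dvd _
    · have h5 := h.2 i (by omega)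
      rw [show i + l - i = l by omega] at h5
      have h6 := dvd_sub h3 (dvd_mul_of_dvd_right h5 q)
      rwa [show q * (a.2 i - b.2 i) - t - q * (a.2 i - c.2 i) = q * (c.2 i - b.2 i) - t by ring]
        at h6

theorem Nl_mono {b : At} {i : ℕ} {t q : ℤ} {l m : ℕ} (hlm : l ≤ m) {a : At}
    (ha : Nl b i t q m a) : Nl b i t q l a :=
  ⟨ha.1, fun j hj => (pow_dvd_pow 2 (by omega)).trans (ha.2.1 j hj),
    (pow_dvd_pow 2 hlm).trans ha.2.2⟩

/-- The sets are preserved by the group elements that fix `b`. -/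
theorem Nl_act {b : At} {i : ℕ} {t q : ℤ} {l : ℕ} {a : At} {g : Equiv.Perm At} (hg : g ∈ G)
    (hb : g b = b) (ha : Nl b i t q l a) : Nl b i t q l (g a) := by
  obtain ⟨h1, h2, h3⟩ := ha
  let c : At := (b.1, fun j => if j < i then b.2 j else a.2 j)
  have hc1 : ∀ j < i, c.2 j = b.2 j := fun j hj => if_pos hj
  have hc2 : ∀ j, ¬ j < i → c.2 j = a.2 j := fun j hj => if_neg hj
  have hac : rel (i + l) a c := by
    refine ⟨h1, fun j hj => ?_⟩
    by_cases hji : j < i
    · rw [hc1 j hji]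
      exact h2 j hji
    · rw [hc2 j hji, sub_self]
      exact dvd_zero _
  obtain ⟨h4, h5⟩ := G_dif hg (a := c) (b := b) rfl hc1
  rw [hb] at h4 h5
  refine Nl_rel (rel_symm ((G_rel hg).2 hac)) ⟨?_, fun j hj => ?_, ?_⟩
  · exact G_fst hg c
  · rw [h4 j hj, sub_self]
    exact dvd_zero _
  · rw [h5, hc2 i (lt_irrefl i)]
    exact h3

/-- The intersection of the sets is empty. -/
theorem Nl_empty {b : At} {i : ℕ} {t : ℤ} (ht : t ≠ 0) {a : At} :
    ∃ l, ¬ Nl b i t (2 * |t| + 1) l a := by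
  by_contra hc
  push Not at hc
  have h1 : (2 * |t| + 1) * (a.2 i - b.2 i) - t = 0 := int_eq_zero fun n => (hc n).2.2
  have h2 : (2 * |t| + 1) ∣ t := ⟨a.2 i - b.2 i, by linarith⟩
  have h3 := Int.le_of_dvd (abs_pos.2 ht) ((dvd_abs _ _).2 h2)
  have h4 := abs_nonneg t
  linarith

/-- Each of the sets contains an element of the orbit. -/
theorem Nl_orbit {g : Equiv.Perm At} (hg : g ∈ G) {b : At} {i : ℕ} {t : ℤ}
    (h1 : ∀ j < i, (g b).2 j = b.2 j) (h2 : (g b).2 i = b.2 i + t) (l : ℕ) :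
    ∃ w : ℕ, Nl b i t (2 * |t| + 1) l ((g ^ w) b) := by
  have hco : Nat.Coprime (2 * t.natAbs + 1) (2 ^ l) := by
    refine Nat.Coprime.pow_right l ?_
    rw [Nat.coprime_comm, Nat.coprime_two_left]
    exact ⟨t.natAbs, rfl⟩
  obtain ⟨w, hw⟩ : ∃ w : ℕ, (2 * t.natAbs + 1) * w ≡ 1 [MOD 2 ^ l] := by
    rcases Nat.eq_zero_or_pos l with rfl | hl
    · exact ⟨0, by simp [Nat.modEq_one]⟩
    · obtain ⟨w, -, hw⟩ := Nat.exists_mul_mod_eq_one_of_coprime hco (Nat.one_lt_two_pow (by omega))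
      exact ⟨w, hw.trans (Nat.mod_eq_of_lt (Nat.one_lt_two_pow (by omega))).symm⟩
  refine ⟨w, ?_⟩
  obtain ⟨h3, h4, h5⟩ := pow_coord hg h1 h2 w
  refine ⟨h3, fun j hj => ?_, ?_⟩
  · rw [h4 j hj, sub_self]
    exact dvd_zero _
  · rw [h5]
    have h6 : ((2 : ℤ) ^ l) ∣ (2 * |t| + 1) * w - 1 := by
      have h7 := (Nat.modEq_iff_dvd.1 hw.symm)
      rw [Int.abs_eq_natAbs]
      push_cast at h7 ⊢
      exact h7
    have h8 := dvd_mul_of_dvd_left h6 t
    rwa [show ((2 * |t| + 1) * (w : ℤ) - 1) * t = (2 * |t| + 1) * (b.2 i + w * t - b.2 i) - t by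
      ring] at h8

end Pool.Agent.R601.KL
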