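import Pool.Agent.R598.FM.CbDefs

/-!
# A Cantor completely metrizable K-Loeb space with a cuf base that is not Loeb: definitions

The class `U A` of all atoms and sets over a set `A` of atoms, its transitive subclasses `N` that
are models of ZFA (`IsZFA`), finite sets (`FinIn`), topologies (`IsTop`) and real numbers (`real`)
of such a model, and permutation models (`FMS`) are defined in `Pool.Agent.R598.FM`.
-/

set_option autoImplicit false

namespace Pool.Agent.R601.KL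

open Pool.Agent.R598.FM
open Pool.Agent.R598.FM.U

section

variable {A : Type}

/-- In the model `N`, the subset `K` of a space with the topology `T` is compact: every cover of
`K` by open sets has a finite subcover. -/
def IsCompSub (N : Set (U A)) (T K : U A) : Prop :=
  ∀ C ∈ N, Sub C T → (∀ x ∈ K, x ∈ sUn C) →
    ∃ F ∈ N, Sub F C ∧ FinIn N F ∧ ∀ x ∈ K, x ∈ sUn F

/-- In the model `N`, the space `(X, T)` is Cantor completely metrizable: some function `d ∈ N` from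
the pairs of points to the real numbers (`ρ x y` is the value at `(x, y)`) is a metric that gives
the topology, and every decreasing sequence in `N` of non-empty closed sets whose diameters tend
to `0` has a non-empty intersection. -/
def IsCantorMetrizable (N : Set (U A)) (X T : U A) : Prop :=
  ∃ d ∈ N, ∃ ρ : U A → U A → ℝ,
    (∀ x ∈ X, ∀ y ∈ X, ∀ z, pair (pair x y) z ∈ d ↔ z = real (ρ x y)) ∧
    (∀ x ∈ X, ∀ y ∈ X, ρ x y = 0 ↔ x = y) ∧ (∀ x ∈ X, ∀ y ∈ X, ρ x y = ρ y x) ∧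
    (∀ x ∈ X, ∀ y ∈ X, ∀ z ∈ X, ρ x z ≤ ρ x y + ρ y z) ∧
    (∀ O ∈ N, Sub O X → (O ∈ T ↔ ∀ x ∈ O, ∃ ε > 0, ∀ y ∈ X, ρ x y < ε → y ∈ O)) ∧
    ∀ s ∈ N, ∀ F : ℕ → U A, (∀ n y, pair (nat n) y ∈ s ↔ y = F n) →
      (∀ n, Sub (F n) X ∧ (∃ x, x ∈ F n) ∧ diff X (F n) ∈ T ∧ Sub (F (n + 1)) (F n)) →
      (∀ ε > 0, ∃ n, ∀ x ∈ F n, ∀ y ∈ F n, ρ x y ≤ ε) → ∃ x, ∀ n, x ∈ F n

/-- In the model `N`, the space `(X, T)` has a cuf base: a base that is the union of a sequence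
`B 0, B 1, ...` in `N` of finite sets. -/
def HasCufBase (N : Set (U A)) (T : U A) : Prop :=
  ∃ b ∈ N, ∃ B : ℕ → U A, (∀ n y, pair (nat n) y ∈ b ↔ y = B n) ∧
    (∀ n, FinIn N (B n) ∧ Sub (B n) T) ∧
    ∀ O ∈ T, ∀ x ∈ O, ∃ n, ∃ V ∈ B n, x ∈ V ∧ Sub V O

/-- In the model `N`, the space `(X, T)` is Loeb: the family of all non-empty closed sets has a
choice function `f ∈ N`. -/
def IsLoeb (N : Set (U A)) (X T : U A) : Prop :=
  ∃ f ∈ N, ∀ K ∈ N, Sub K X → (∃ x, x ∈ K) → diff X K ∈ T →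
    ∃ y ∈ K, ∀ w, pair K w ∈ f ↔ w = y

/-- In the model `N`, the space `(X, T)` is `K`-Loeb: the family of all non-empty compact sets has a
choice function `f ∈ N`. -/
def IsKLoeb (N : Set (U A)) (X T : U A) : Prop :=
  ∃ f ∈ N, ∀ K ∈ N, Sub K X → (∃ x, x ∈ K) → IsCompSub N T K →
    ∃ y ∈ K, ∀ w, pair K w ∈ f ↔ w = y

end

/-! ### The permutation model -/

/-- The atoms. -/
abbrev At : Type := ℕ × (ℕ → ℤ)

/-- The equivalence relations that give the topology: `a` and `b` have the same first component, and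
for `i < n` the `i`-th terms of their sequences are congruent modulo `2 ^ (n - i)`. -/
def rel (n : ℕ) (a b : At) : Prop := a.1 = b.1 ∧ ∀ i < n, (2 : ℤ) ^ (n - i) ∣ a.2 i - b.2 i

/-- The sequences of `a` and `b` agree below `i`, and the difference at `i` is `k`. -/
def Dif (i : ℕ) (k : ℤ) (a b : At) : Prop :=
  a.1 = b.1 ∧ (∀ j < i, a.2 j = b.2 j) ∧ a.2 i - b.2 i = k

/-- The group of the permutations of the atoms that preserve the first components and all the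
relations `rel n` and `Dif i k`. -/
def G : Subgroup (Equiv.Perm At) where
  carrier := {φ | (∀ a, (φ a).1 = a.1) ∧ (∀ n a b, rel n (φ a) (φ b) ↔ rel n a b) ∧
    ∀ i k a b, Dif i k (φ a) (φ b) ↔ Dif i k a b}
  mul_mem' := by
    rintro φ ψ ⟨h1, h2, h3⟩ ⟨h4, h5, h6⟩
    refine ⟨fun a => ?_, fun n a b => ?_, fun i k a b => ?_⟩
    · rw [Equiv.Perm.mul_apply, h1, h4]
    · rw [Equiv.Perm.mul_apply, Equiv.Perm.mul_apply, h2, h5]
    · rw [Equiv.Perm.mul_apply, Equiv.Perm.mul_apply, h3, h6]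
  one_mem' := ⟨fun _ => rfl, fun _ _ _ => Iff.rfl, fun _ _ _ _ => Iff.rfl⟩
  inv_mem' := by
    rintro φ ⟨h1, h2, h3⟩
    have e : ∀ x, φ (φ⁻¹ x) = x := fun x => φ.apply_symm_apply x
    refine ⟨fun a => ?_, fun n a b => ?_, fun i k a b => ?_⟩
    · have h := h1 (φ⁻¹ a)
      rw [e] at h
      exact h.symm
    · have h := h2 n (φ⁻¹ a) (φ⁻¹ b)
      rw [e, e] at h
      exact h.symm
    · have h := h3 i k (φ⁻¹ a) (φ⁻¹ b)
      rw [e, e] at h
      exact h.symm

/-- The elements of the group that fix all elements of `E`. -/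
def fixG (E : Set At) : Subgroup (Equiv.Perm At) where
  carrier := {φ | φ ∈ G ∧ ∀ a ∈ E, φ a = a}
  mul_mem' := by
    rintro φ ψ ⟨h1, h2⟩ ⟨h3, h4⟩
    refine ⟨G.mul_mem h1 h3, fun a ha => ?_⟩
    rw [Equiv.Perm.mul_apply, h4 a ha, h2 a ha]
  one_mem' := ⟨G.one_mem, fun _ _ => rfl⟩
  inv_mem' := by
    rintro φ ⟨h1, h2⟩
    refine ⟨G.inv_mem h1, fun a ha => ?_⟩
    rw [Equiv.Perm.inv_eq_iff_eq, h2 a ha]

/-- The normal filter given by the finite sets of atoms. -/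
def sys : FMS At where
  G := G
  F := {K | ∃ E : Set At, E.Finite ∧ K = fixG E}
  le := by
    rintro _ ⟨E, -, rfl⟩ φ h
    exact h.1
  ne := ⟨_, ∅, Set.finite_empty, rfl⟩
  dir := by
    rintro _ ⟨E, hE, rfl⟩ _ ⟨E', hE', rfl⟩
    exact ⟨_, ⟨E ∪ E', hE.union hE', rfl⟩, fun φ h => ⟨h.1, fun a ha => h.2 a (Or.inl ha)⟩,
      fun φ h => ⟨h.1, fun a ha => h.2 a (Or.inr ha)⟩⟩
  conj := by
    rintro _ ⟨E, hE, rfl⟩ g hg
    refine ⟨_, ⟨g '' E, hE.image _, rfl⟩, fun k hk => ⟨G.mul_mem (G.mul_mem (G.inv_mem hg) hk.1) hg,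
      fun a ha => ?_⟩⟩
    change g.symm (k (g a)) = a
    rw [hk.2 _ ⟨a, ha, rfl⟩, Equiv.symm_apply_apply]
  atom := fun a => ⟨_, ⟨{a}, Set.finite_singleton a, rfl⟩, fun g hg => hg.2 a rfl⟩

/-- The permutation model. -/
def NK : Set (U At) := sys.N

end Pool.Agent.R601.KL
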