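import Pool.Agent.R601.KL.Top

/-!
# The space in the permutation model: completeness, compact sets and choice functions
-/

set_option autoImplicit false

namespace Pool.Agent.R601.KL

open Pool.Agent.R598.FM
open Pool.Agent.R598.FM.U
open Pool.Agent.R598.FM.FMS

/-! ### Completeness -/

theorem isCantor : IsCantorMetrizable NK atoms TK := by
  let ρ : U At → U At → ℝ := fun x y => rho (uat x) (uat y)
  have hρ : ∀ a b, ρ (U.atom a) (U.atom b) = rho a b := fun a b => by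
    change rho (uat (U.atom a)) (uat (U.atom b)) = rho a b
    rw [uat_atom, uat_atom]
  refine ⟨dK, dK_mem, ρ, ?_, ?_, ?_, ?_, ?_, ?_⟩
  · intro x hx y hy z
    obtain ⟨a, rfl⟩ := mem_atoms.1 hx
    obtain ⟨b, rfl⟩ := mem_atoms.1 hy
    rw [pair_dK, hρ]
  · intro x hx y hy
    obtain ⟨a, rfl⟩ := mem_atoms.1 hx
    obtain ⟨b, rfl⟩ := mem_atoms.1 hy
    rw [hρ, rho_eq_zero]
    exact ⟨fun h => congrArg _ h, atom_inj⟩
  · intro x hx y hy
    exact rho_comm _ _
  · intro x hx y hy z hz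
    exact rho_tri _ _ _
  · intro O hO hOX
    constructor
    · intro h x hx
      obtain ⟨a, rfl⟩ := mem_atoms.1 (hOX.2 x hx)
      obtain ⟨n, hn⟩ := (mem_TK.1 h).2 a hx
      refine ⟨(1 / 2) ^ n, by positivity, fun y hy hxy => ?_⟩
      obtain ⟨b, rfl⟩ := mem_atoms.1 hy
      rw [hρ] at hxy
      exact hn b (rel_of_lt hxy)
    · intro h
      refine mem_TK.2 ⟨⟨hO, hOX⟩, fun a ha => ?_⟩
      obtain ⟨ε, hε, h1⟩ := h _ ha
      obtain ⟨n, hn⟩ := exists_pow_lt_of_lt_one hε (show (1 / 2 : ℝ) < 1 by norm_num)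
      refine ⟨n, fun b hb => h1 _ (mem_atoms.2 ⟨b, rfl⟩) ?_⟩
      rw [hρ]
      exact (rho_lt hb).trans hn
  · intro s hs F hsF hF hd
    obtain ⟨H, hH, hfx⟩ := supp hs
    obtain ⟨E, hE, rfl⟩ := hH
    have hgF : ∀ g ∈ fixG E, ∀ n, act g (F n) = F n := by
      intro g hg n
      have h1 := hfx.mem hg ((hsF n (F n)).2 rfl)
      rw [act_pair, act_nat] at h1
      exact (hsF n _).1 h1
    have hanti : ∀ n m, n ≤ m → ∀ x ∈ F m, x ∈ F n := by
      intro n m hnm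
      induction m, hnm using Nat.le_induction with
      | base => exact fun x hx => hx
      | succ m _ ih => exact fun x hx => ih x ((hF m).2.2.2.2 x hx)
    have hd' : ∀ l : ℕ, ∃ n, ∀ a b, U.atom a ∈ F n → U.atom b ∈ F n → rel l a b := by
      intro l
      obtain ⟨n, hn⟩ := hd ((1 / 2) ^ (l + 1)) (by positivity)
      refine ⟨n, fun a b ha hb => rel_of_lt ?_⟩
      have h1 := hn _ ha _ hb
      rw [hρ] at h1
      refine lt_of_le_of_lt h1 (pow_lt_pow_right_of_lt_one₀ (by norm_num) (by norm_num)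
        (Nat.lt_succ_self l))
    choose N hN using hd'
    have hne : ∀ n, ∃ a : At, U.atom a ∈ F n := by
      intro n
      obtain ⟨x, hx⟩ := (hF n).2.1
      obtain ⟨a, rfl⟩ := mem_atoms.1 ((hF n).1.2 x hx)
      exact ⟨a, hx⟩
    have hne' : ∀ l, ∃ a : At, U.atom a ∈ F (N l) := fun l => hne (N l)
    choose a ha using hne'
    have hrel : ∀ l m, l ≤ m → rel l (a l) (a m) := by
      intro l m hlm
      rcases le_total (N l) (N m) with h | h
      · exact hN l _ _ (ha l) (hanti _ _ h _ (ha m))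
      · exact rel_mono hlm (hN m _ _ (hanti _ _ h _ (ha l)) (ha m))
    obtain ⟨e, -, he⟩ : ∃ e ∈ E, ∀ l, rel l (a l) e := by
      by_contra hc
      push Not at hc
      choose! f hf using hc
      obtain ⟨L, hL⟩ := (hE.image f).bddAbove
      have h1 : ∀ e ∈ E, ¬ rel L e (a L) := by
        intro e he h1
        have h2 : f e ≤ L := hL ⟨e, he, rfl⟩
        exact hf e he (rel_trans (hrel _ _ h2) (rel_mono h2 (rel_symm h1)))
      have hg : shP L (a L) 1 ∈ fixG E := ⟨shP_mem, fun e he => sh_neg (h1 e he)⟩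
      have h2 : rel L (a (L + 1)) (a L) := rel_symm (hrel L (L + 1) (Nat.le_succ L))
      have h3 : U.atom (shP L (a L) 1 (a (L + 1))) ∈ F (N (L + 1)) := by
        rw [← hgF _ hg (N (L + 1)), ← act_atom, act_mem_act]
        exact ha (L + 1)
      have h4 := (hN (L + 1) _ _ (ha (L + 1)) h3).2 L (Nat.lt_succ_self L)
      rw [shP_apply, sh_self h2, show L + 1 - L = 1 by omega] at h4
      omega
    refine ⟨U.atom e, fun n => ?_⟩
    by_contra hc
    have h1 : U.atom e ∈ diff atoms (F n) := mem_diff.2 ⟨mem_atoms.2 ⟨e, rfl⟩, hc⟩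
    obtain ⟨k, hk⟩ := (mem_TK.1 (hF n).2.2.1).2 e h1
    rcases le_total n (N k) with h | h
    · exact (mem_diff.1 (hk (a k) (rel_symm (he k)))).2 (hanti _ _ h _ (ha k))
    · obtain ⟨c, hc'⟩ := hne n
      have h2 : rel k (a k) c := hN k _ _ (ha k) (hanti _ _ h _ hc')
      exact (mem_diff.1 (hk c (rel_trans (rel_symm (he k)) h2))).2 hc'

/-! ### Compact sets -/

/-- The group elements that preserve a compact set fix all its elements. -/
theorem fix_of_compact {K : U At} (hK : Sub K atoms) (hc : IsCompSub NK TK K)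
    {g : Equiv.Perm At} (hg : g ∈ G) (hgK : act g K = K) {b : At} (hb : U.atom b ∈ K) :
    g b = b := by
  classical
  by_contra hne
  have hex : ∃ i, (g b).2 i ≠ b.2 i := by
    by_contra h
    push Not at h
    exact hne (Prod.ext (G_fst hg b) (funext h))
  obtain ⟨i, hi, hmin⟩ : ∃ i, (g b).2 i ≠ b.2 i ∧ ∀ j < i, (g b).2 j = b.2 j :=
    ⟨Nat.find hex, Nat.find_spec hex, fun j hj => by
      have := Nat.find_min hex hj
      push Not at this
      exact this⟩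
  set t := (g b).2 i - b.2 i with ht
  have ht0 : t ≠ 0 := sub_ne_zero.2 hi
  have ht' : (g b).2 i = b.2 i + t := by rw [ht]; ring
  let O : ℕ → U At := fun l => sep (fun z => ∀ a, z = U.atom a → ¬ Nl b i t (2 * |t| + 1) l a) atoms
  have hO : ∀ l a, U.atom a ∈ O l ↔ ¬ Nl b i t (2 * |t| + 1) l a := by
    intro l a
    change U.atom a ∈ sep _ _ ↔ _
    rw [mem_sep]
    constructor
    · exact fun h => h.2 a rfl
    · intro h
      exact ⟨mem_atoms.2 ⟨a, rfl⟩, fun a' ha' => atom_inj ha' ▸ h⟩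
  have hH : fixG {b} ∈ sys.F := ⟨{b}, Set.finite_singleton b, rfl⟩
  have hOfx : ∀ l, Fx (fixG {b}) (O l) := by
    intro l
    refine fx_of (isSet_mk _) fun g' hg' z hz => ?_
    obtain ⟨a, rfl⟩ := mem_atoms.1 (mem_sep.1 hz).1
    rw [act_atom, hO]
    intro h
    refine (hO l a).1 hz ?_
    have h1 := Nl_act (G.inv_mem hg'.1) (by
      rw [Equiv.Perm.inv_eq_iff_eq]
      exact (hg'.2 b rfl).symm) h
    rwa [show g'⁻¹ (g' a) = a from g'.symm_apply_apply a] at h1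
  have hON : ∀ l, O l ∈ NK := fun l => mem_N.2 ⟨⟨_, hH, hOfx l⟩, fun y hy =>
    trans atoms_mem (mem_sep.1 hy).1⟩
  have hOT : ∀ l, O l ∈ TK := fun l => mem_TK.2 ⟨⟨hON l, isSet_mk _, fun z hz =>
    (mem_sep.1 hz).1⟩, fun a ha => ⟨i + l, fun c hac => (hO l c).2 fun h =>
      (hO l a).1 ha (Nl_rel (rel_symm hac) h)⟩⟩
  obtain ⟨F, hF, hFC, hFfin, hcov⟩ := hc (U.mk O) (mem_N.2 ⟨⟨_, hH, fun g' hg' => by
    rw [act_mk]
    congr 1
    funext l
    exact hOfx l g' hg'⟩, fun y hy => by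
    obtain ⟨l, rfl⟩ := mem_mk.1 hy
    exact hON l⟩) ⟨isSet_mk _, fun y hy => by
    obtain ⟨l, rfl⟩ := mem_mk.1 hy
    exact hOT l⟩ (fun x hx => by
    obtain ⟨a, rfl⟩ := mem_atoms.1 (hK.2 x hx)
    obtain ⟨l, hl⟩ := Nl_empty (b := b) (i := i) ht0 (a := a)
    exact mem_sUn.2 ⟨O l, mem_mk.2 ⟨l, rfl⟩, (hO l a).2 hl⟩)
  have hfin := (finIn_iff fun z hz => trans hF hz).1 hFfin
  have hl : ∀ z ∈ F, ∃ l, z = O l := fun z hz => mem_mk.1 (hFC.2 z hz)
  choose! f hf using hl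
  obtain ⟨L, hL⟩ := (hfin.image f).bddAbove
  obtain ⟨w, hw⟩ := Nl_orbit hg hmin ht' L
  have hpow : ∀ w : ℕ, act (g ^ w) K = K := by
    intro w
    induction w with
    | zero => rw [pow_zero, act_one]
    | succ w ih => rw [pow_succ, act_mul, hgK, ih]
  have h1 : U.atom ((g ^ w) b) ∈ K := by
    rw [← hpow w, ← act_atom, act_mem_act]
    exact hb
  obtain ⟨z, hz, h2⟩ := mem_sUn.1 (hcov _ h1)
  rw [hf z hz, hO] at h2
  exact h2 (Nl_mono (hL ⟨z, hz, rfl⟩) hw)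

theorem isCompSub_act {g : Equiv.Perm At} (hg : g ∈ G) {K : U At} (hc : IsCompSub NK TK K) :
    IsCompSub NK TK (act g K) := by
  intro C hC hCT hcov
  have hgi := G.inv_mem hg
  obtain ⟨F, hF, hFC, hFfin, h1⟩ := hc (act g⁻¹ C) (FMS.act_mem hgi hC) ⟨isSet_act hCT.1, fun z hz
      => by
    obtain ⟨y, hy, rfl⟩ := mem_act.1 hz
    exact act_mem_TK hgi (hCT.2 y hy)⟩ fun x hx => by
    obtain ⟨y, hy, h2⟩ := mem_sUn.1 (hcov (act g x) (act_mem_act.2 hx))
    refine mem_sUn.2 ⟨act g⁻¹ y, act_mem_act.2 hy, ?_⟩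
    have h3 := act_mem_act (g := g⁻¹).2 h2
    rwa [act_inv_act] at h3
  have hF' := FMS.act_mem hg hF
  refine ⟨act g F, hF', ?_, ?_, fun x hx => ?_⟩
  · have h2 := sub_act (g := g) hFC
    rwa [act_act_inv] at h2
  · refine (finIn_iff fun z hz => trans hF' hz).2 ?_
    have hfin := (finIn_iff fun z hz => trans hF hz).1 hFfin
    refine (hfin.image (act g)).subset fun z hz => ?_
    obtain ⟨y, hy, rfl⟩ := mem_act.1 hz
    exact ⟨y, hy, rfl⟩
  · obtain ⟨y, hy, rfl⟩ := mem_act.1 hx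
    obtain ⟨z, hz, h2⟩ := mem_sUn.1 (h1 y hy)
    exact mem_sUn.2 ⟨act g z, act_mem_act.2 hz, act_mem_act.2 h2⟩

/-- The non-empty compact sets. -/
def KC (K : U At) : Prop := K ∈ NK ∧ Sub K atoms ∧ (∃ x, x ∈ K) ∧ IsCompSub NK TK K

theorem KC_act {g : Equiv.Perm At} (hg : g ∈ G) {K : U At} (h : KC K) : KC (act g K) := by
  obtain ⟨h1, h2, ⟨x, hx⟩, h4⟩ := h
  exact ⟨FMS.act_mem hg h1, act_sub_atoms h2, ⟨_, act_mem_act.2 hx⟩, isCompSub_act hg h4⟩

/-- The orbits. -/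
def st : Setoid {K : U At // KC K} where
  r K K' := ∃ g ∈ G, act g K.1 = K'.1
  iseqv := by
    refine ⟨fun K => ⟨1, G.one_mem, act_one _⟩, ?_, ?_⟩
    · rintro K K' ⟨g, hg, h⟩
      exact ⟨g⁻¹, G.inv_mem hg, by rw [← h, act_inv_act]⟩
    · rintro K K' K'' ⟨g, hg, h⟩ ⟨g', hg', h'⟩
      exact ⟨g' * g, G.mul_mem hg' hg, by rw [act_mul, h, h']⟩

/-- The representative of the orbit. -/
noncomputable def rep (K : {K : U At // KC K}) : {K : U At // KC K} := (Quotient.mk st K).out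

theorem rep_rel (K : {K : U At // KC K}) : ∃ g ∈ G, act g (rep K).1 = K.1 :=
  Quotient.exact (s := st) (Quotient.out_eq (Quotient.mk st K))

theorem rep_act {K K' : {K : U At // KC K}} (h : ∃ g ∈ G, act g K.1 = K'.1) : rep K = rep K' :=
  congrArg Quotient.out (Quotient.sound (s := st) h)

/-- A point. -/
noncomputable def xr (K : {K : U At // KC K}) : U At := K.2.2.2.1.choose

theorem xr_mem (K : {K : U At // KC K}) : xr K ∈ K.1 := K.2.2.2.1.choose_spec

/-- The chosen point. -/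
noncomputable def pt (K : {K : U At // KC K}) : U At := act (rep_rel K).choose (xr (rep K))

theorem pt_mem (K : {K : U At // KC K}) : pt K ∈ K.1 := by
  have h := act_mem_act (g := (rep_rel K).choose).2 (xr_mem (rep K))
  rwa [(rep_rel K).choose_spec.2] at h

theorem pt_act {g : Equiv.Perm At} (hg : g ∈ G) {K K' : {K : U At // KC K}}
    (h : act g K.1 = K'.1) : pt K' = act g (pt K) := by
  have hr : rep K = rep K' := rep_act ⟨g, hg, h⟩
  obtain ⟨hg1, h1⟩ := (rep_rel K).choose_spec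
  obtain ⟨hg2, h2⟩ := (rep_rel K').choose_spec
  set g1 := (rep_rel K).choose with hg1'
  set g2 := (rep_rel K').choose with hg2'
  have e1 : pt K = act g1 (xr (rep K)) := rfl
  have e2 : pt K' = act g2 (xr (rep K')) := rfl
  rw [e1, e2, ← hr]
  rw [← hr] at h2
  have h3 : act (g2⁻¹ * (g * g1)) (rep K).1 = (rep K).1 := by
    rw [act_mul, act_mul, h1, h, ← h2, act_inv_act]
  obtain ⟨b, hb⟩ := mem_atoms.1 ((rep K).2.2.1.2 _ (xr_mem (rep K)))
  have hb' : U.atom b ∈ (rep K).1 := hb ▸ xr_mem (rep K)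
  have h4 := fix_of_compact (rep K).2.2.1 (rep K).2.2.2.2
    (G.mul_mem (G.inv_mem hg2) (G.mul_mem hg hg1)) h3 hb'
  have h5 : act (g2⁻¹ * (g * g1)) (xr (rep K)) = xr (rep K) := by
    rw [hb, act_atom, h4]
  rw [act_mul, act_mul] at h5
  have h6 := congrArg (act g2) h5
  rw [act_act_inv] at h6
  exact h6.symm

open Classical in
/-- The choice function. -/
noncomputable def PK (K : U At) : U At := if h : KC K then pt ⟨K, h⟩ else emp

theorem PK_mem {K : U At} (h : KC K) : PK K ∈ K := by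
  unfold PK
  rw [dif_pos h]
  exact pt_mem _

theorem PK_act {g : Equiv.Perm At} (hg : g ∈ G) {K : U At} (h : KC K) :
    PK (act g K) = act g (PK K) := by
  unfold PK
  rw [dif_pos h, dif_pos (KC_act hg h)]
  exact pt_act hg rfl

theorem isKLoeb : IsKLoeb NK atoms TK := by
  let f : U At := ims (fun K => pair K (PK K)) (sep KC (powN sys atoms))
  have hf : ∀ z, z ∈ f ↔ ∃ K, KC K ∧ z = pair K (PK K) := by
    intro z
    change z ∈ ims _ _ ↔ _
    rw [mem_ims]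
    constructor
    · rintro ⟨K, hK, rfl⟩
      exact ⟨K, (mem_sep.1 hK).2, rfl⟩
    · rintro ⟨K, hK, rfl⟩
      exact ⟨K, mem_sep.2 ⟨mem_powN.2 ⟨hK.1, hK.2.1⟩, hK⟩, rfl⟩
  refine ⟨f, ?_, fun K hK hKX hne hc => ?_⟩
  · refine mem_of (isSet_mk _) (fun y hy => ?_) H0 fun g hg z hz => ?_
    · obtain ⟨K, hK, rfl⟩ := (hf y).1 hy
      exact pair_mem hK.1 (trans hK.1 (PK_mem hK))
    · obtain ⟨K, hK, rfl⟩ := (hf z).1 hz
      refine (hf _).2 ⟨act g K, KC_act hg.1 hK, ?_⟩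
      rw [act_pair, PK_act hg.1 hK]
  · have h : KC K := ⟨hK, hKX, hne, hc⟩
    refine ⟨PK K, PK_mem h, fun w => ?_⟩
    rw [hf]
    constructor
    · rintro ⟨K', hK', he⟩
      obtain ⟨rfl, rfl⟩ := pair_inj.1 he
      rfl
    · rintro rfl
      exact ⟨K, h, rfl⟩

/-! ### The space is not Loeb -/

theorem diff_cls (a : At) : diff atoms (cls 0 a) ∈ TK := by
  refine mem_TK.2 ⟨⟨?_, isSet_mk _, fun z hz => (mem_diff.1 hz).1⟩, fun b hb => ⟨0, fun c hc =>
    mem_diff.2 ⟨mem_atoms.2 ⟨c, rfl⟩, fun h => ?_⟩⟩⟩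
  · refine sep_mem atoms_mem (H := fixG {a}) ⟨_, Set.finite_singleton a, rfl⟩
      fun g hg z hz hz' => ⟨?_, fun h => hz' ?_⟩
    · obtain ⟨b, rfl⟩ := mem_atoms.1 hz
      exact mem_atoms.2 ⟨g b, act_atom g b⟩
    · have h1 : act g (cls 0 a) = cls 0 a := by
        rw [act_cls hg.1, hg.2 a rfl]
      rw [← h1, act_mem_act] at h
      exact h
  · exact (mem_diff.1 hb).2 (atom_mem_cls.2 (rel_trans (atom_mem_cls.1 h) (rel_symm hc)))

theorem not_isLoeb : ¬ IsLoeb NK atoms TK := by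
  rintro ⟨f, hf, h⟩
  obtain ⟨H, hH, hfx⟩ := supp hf
  obtain ⟨E, hE, rfl⟩ := hH
  obtain ⟨m, hm⟩ := (hE.image Prod.fst).exists_notMem
  let a : At := (m, fun _ => 0)
  obtain ⟨y, hy, hyw⟩ := h (cls 0 a) (cls_mem 0 a) (mem_TK.1 (cls_TK 0 a)).1.2
    ⟨_, atom_mem_cls.2 (rel_refl 0 a)⟩ (diff_cls a)
  obtain ⟨b, hb, rfl⟩ := mem_cls.1 hy
  have hg : shP 0 a 1 ∈ fixG E := ⟨shP_mem, fun e he => sh_neg fun h1 => hm ⟨e, he, h1.1⟩⟩
  have h1 : act (shP 0 a 1) (cls 0 a) = cls 0 a := by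
    rw [act_cls hg.1]
    exact cls_eq (rel_sh_self a)
  have h2 := hfx.mem hg ((hyw _).2 rfl)
  rw [act_pair, h1] at h2
  have h3 := (hyw _).1 h2
  rw [act_atom] at h3
  have h4 : (sh 0 a 1 b).2 0 = b.2 0 := by
    have h5 := atom_inj h3
    rw [shP_apply] at h5
    rw [h5]
  rw [sh_self (rel_symm hb)] at h4
  omega

end Pool.Agent.R601.KL
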