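import Pool.Agent.R601.KL.Alg

/-!
# The space in the permutation model: topology, cuf base and metric
-/

set_option autoImplicit false

namespace Pool.Agent.R601.KL

open Pool.Agent.R598.FM
open Pool.Agent.R598.FM.U
open Pool.Agent.R598.FM.FMS

theorem act_real {A : Type} (g : Equiv.Perm A) (r : ℝ) : act g (real r : U A) = real r := by
  unfold real
  rw [act_mk]
  congr 1
  funext q
  exact act_nat g _

theorem real_mem (r : ℝ) : (real r : U At) ∈ NK :=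
  mem_N.2 ⟨⟨_, ⟨∅, Set.finite_empty, rfl⟩, fun g _ => act_real g r⟩, fun y hy => by
    obtain ⟨q, rfl⟩ := mem_mk.1 hy
    exact nat_mem _⟩

theorem H0 : fixG ∅ ∈ sys.F := ⟨∅, Set.finite_empty, rfl⟩

theorem mem_H0 {g : Equiv.Perm At} (hg : g ∈ G) : g ∈ fixG ∅ := ⟨hg, fun _ h => h.elim⟩

theorem atom_mem_act {g : Equiv.Perm At} {a : At} {x : U At} :
    atom a ∈ act g x ↔ atom (g⁻¹ a) ∈ x := by
  have h : (atom a : U At) = act g (atom (g⁻¹ a)) := by
    rw [act_atom]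
    exact congrArg atom (g.apply_symm_apply a).symm
  rw [h, act_mem_act]

/-- The set is open. -/
def OpenP (O : U At) : Prop := ∀ a, atom a ∈ O → ∃ n, ∀ b, rel n a b → atom b ∈ O

theorem OpenP.act {g : Equiv.Perm At} (hg : g ∈ G) {O : U At} (hO : OpenP O) :
    OpenP (act g O) := by
  intro a ha
  obtain ⟨n, hn⟩ := hO _ (atom_mem_act.1 ha)
  exact ⟨n, fun b hb => atom_mem_act.2 (hn _ ((G_rel (G.inv_mem hg)).2 hb))⟩

/-- The topology of the space. -/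
noncomputable def TK : U At := sep OpenP (powN sys atoms)

theorem mem_TK {O : U At} : O ∈ TK ↔ (O ∈ NK ∧ Sub O atoms) ∧ OpenP O := by
  rw [TK, mem_sep, mem_powN]
  rfl

theorem act_sub_atoms {g : Equiv.Perm At} {O : U At} (h : Sub O atoms) : Sub (act g O) atoms := by
  refine ⟨isSet_act h.1, fun z hz => ?_⟩
  obtain ⟨w, hw, rfl⟩ := mem_act.1 hz
  obtain ⟨a, rfl⟩ := mem_atoms.1 (h.2 w hw)
  exact mem_atoms.2 ⟨g a, act_atom g a⟩

theorem act_mem_TK {g : Equiv.Perm At} (hg : g ∈ G) {O : U At} (hO : O ∈ TK) : act g O ∈ TK := by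
  obtain ⟨⟨h1, h2⟩, h3⟩ := mem_TK.1 hO
  exact mem_TK.2 ⟨⟨FMS.act_mem hg h1, act_sub_atoms h2⟩, h3.act hg⟩

theorem TK_mem : TK ∈ NK :=
  mem_of (isSet_mk _) (fun _ hy => (mem_TK.1 hy).1.1) H0 fun _ hg _ hz => act_mem_TK hg.1 hz

theorem isTop : IsTop NK atoms TK := by
  refine ⟨isSet_mk _, fun O hO => (mem_TK.1 hO).1.2, ?_, ?_, ?_, ?_⟩
  · exact mem_TK.2 ⟨⟨emp_mem, isSet_mk _, fun z hz => (notMem_emp hz).elim⟩,
      fun a ha => (notMem_emp ha).elim⟩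
  · exact mem_TK.2 ⟨⟨atoms_mem, isSet_mk _, fun z hz => hz⟩, fun a _ => ⟨0, fun b _ =>
      mem_atoms.2 ⟨b, rfl⟩⟩⟩
  · intro O hO O' hO'
    obtain ⟨⟨h1, h2⟩, h3⟩ := mem_TK.1 hO
    obtain ⟨⟨h4, h5⟩, h6⟩ := mem_TK.1 hO'
    obtain ⟨H, hH, h7, h8⟩ := supp2 h1 h4
    refine mem_TK.2 ⟨⟨sep_mem h1 hH fun g hg z hz hz' => ⟨h7.mem hg hz, h8.mem hg hz'⟩,
      isSet_mk _, fun z hz => h2.2 z (mem_int.1 hz).1⟩, fun a ha => ?_⟩
    obtain ⟨ha1, ha2⟩ := mem_int.1 ha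
    obtain ⟨n, hn⟩ := h3 a ha1
    obtain ⟨m, hm⟩ := h6 a ha2
    exact ⟨max n m, fun b hb => mem_int.2 ⟨hn b (rel_mono (le_max_left _ _) hb),
      hm b (rel_mono (le_max_right _ _) hb)⟩⟩
  · intro C hC hCT
    refine mem_TK.2 ⟨⟨sUn_mem hC, isSet_mk _, fun z hz => ?_⟩, fun a ha => ?_⟩
    · obtain ⟨y, hy, hz⟩ := mem_sUn.1 hz
      exact (mem_TK.1 (hCT.2 y hy)).1.2.2 z hz
    · obtain ⟨y, hy, ha⟩ := mem_sUn.1 ha
      obtain ⟨n, hn⟩ := (mem_TK.1 (hCT.2 y hy)).2 a ha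
      exact ⟨n, fun b hb => mem_sUn.2 ⟨y, hy, hn b hb⟩⟩

/-! ### The cuf base -/

/-- The class of `a`. -/
noncomputable def cls (l : ℕ) (a : At) : U At := U.mk fun b : {b // rel l a b} => atom b.1

theorem mem_cls {l : ℕ} {a : At} {z : U At} : z ∈ cls l a ↔ ∃ b, rel l a b ∧ z = atom b := by
  rw [cls, mem_mk]
  constructor
  · rintro ⟨⟨b, hb⟩, rfl⟩
    exact ⟨b, hb, rfl⟩
  · rintro ⟨b, hb, rfl⟩
    exact ⟨⟨b, hb⟩, rfl⟩

theorem atom_mem_cls {l : ℕ} {a b : At} : atom b ∈ cls l a ↔ rel l a b := by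
  rw [mem_cls]
  exact ⟨fun ⟨c, hc, h⟩ => atom_inj h ▸ hc, fun h => ⟨b, h, rfl⟩⟩

theorem act_cls {g : Equiv.Perm At} (hg : g ∈ G) (l : ℕ) (a : At) :
    act g (cls l a) = cls l (g a) := by
  refine ext (isSet_act (isSet_mk _)) (isSet_mk _) fun z => ?_
  rw [mem_act, mem_cls]
  constructor
  · rintro ⟨y, hy, rfl⟩
    obtain ⟨b, hb, rfl⟩ := mem_cls.1 hy
    exact ⟨g b, (G_rel hg).2 hb, act_atom g b⟩
  · rintro ⟨b, hb, rfl⟩
    refine ⟨atom (g⁻¹ b), mem_cls.2 ⟨_, ?_, rfl⟩, ?_⟩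
    · rw [← G_rel hg]
      have h : g (g⁻¹ b) = b := g.apply_symm_apply b
      rwa [h]
    · rw [act_atom]
      exact congrArg atom (g.apply_symm_apply b).symm

theorem cls_mem (l : ℕ) (a : At) : cls l a ∈ NK :=
  mem_of (H := fixG {a}) (isSet_mk _) (fun y hy => by
    obtain ⟨b, -, rfl⟩ := mem_cls.1 hy
    exact atom_mem b) ⟨_, Set.finite_singleton a, rfl⟩ fun g hg z hz => by
    obtain ⟨b, hb, rfl⟩ := mem_cls.1 hz
    rw [act_atom, atom_mem_cls]
    have h := (G_rel hg.1).2 hb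
    rwa [hg.2 a rfl] at h

theorem cls_TK (l : ℕ) (a : At) : cls l a ∈ TK :=
  mem_TK.2 ⟨⟨cls_mem l a, isSet_mk _, fun z hz => by
    obtain ⟨b, -, rfl⟩ := mem_cls.1 hz
    exact mem_atoms.2 ⟨b, rfl⟩⟩, fun b hb => ⟨l, fun c hc => atom_mem_cls.2
      (rel_trans (atom_mem_cls.1 hb) hc)⟩⟩

theorem cls_eq {l : ℕ} {a b : At} (h : rel l a b) : cls l a = cls l b :=
  ext (isSet_mk _) (isSet_mk _) fun z => by
    rw [mem_cls, mem_cls]
    exact ⟨fun ⟨c, hc, hz⟩ => ⟨c, rel_trans (rel_symm h) hc, hz⟩,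
      fun ⟨c, hc, hz⟩ => ⟨c, rel_trans h hc, hz⟩⟩

/-- The classes in one component. -/
noncomputable def Bs (m l : ℕ) : U At := U.mk fun z : ℕ → ℤ => cls l (m, z)

theorem act_Bs {g : Equiv.Perm At} (hg : g ∈ G) (m l : ℕ) : act g (Bs m l) = Bs m l := by
  have h : ∀ g ∈ G, ∀ z ∈ Bs m l, act g z ∈ Bs m l := by
    intro g hg z hz
    obtain ⟨y, rfl⟩ := mem_mk.1 hz
    rw [act_cls hg]
    refine mem_mk.2 ⟨(g (m, y)).2, ?_⟩
    have h1 : g (m, y) = (m, (g (m, y)).2) := Prod.ext (G_fst hg _) rfl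
    rw [← h1]
  exact act_eq_self (isSet_mk _) (h g hg) (h _ (G.inv_mem hg))

theorem Bs_mem (m l : ℕ) : Bs m l ∈ NK :=
  mem_N.2 ⟨⟨_, H0, fun g hg => act_Bs hg.1 m l⟩, fun y hy => by
    obtain ⟨z, rfl⟩ := mem_mk.1 hy
    exact cls_mem _ _⟩

theorem Bs_fin (m l : ℕ) : {z | z ∈ Bs m l}.Finite := by
  let pt : (Fin l → Fin (2 ^ l)) → U At := fun v =>
    cls l (m, fun i => if h : i < l then ((v ⟨i, h⟩ : ℕ) : ℤ) else 0)
  refine (Set.finite_range pt).subset ?_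
  intro y hy
  obtain ⟨z, rfl⟩ := mem_mk.1 hy
  have hp : (0 : ℤ) < 2 ^ l := by positivity
  refine ⟨fun i => ⟨(z i % 2 ^ l).toNat, ?_⟩, ?_⟩
  · have h1 := Int.emod_lt_of_pos (z i) hp
    have h2 := Int.emod_nonneg (z i) hp.ne'
    zify
    rw [Int.toNat_of_nonneg h2]
    exact_mod_cast h1
  · refine cls_eq ⟨rfl, fun i hi => ?_⟩
    dsimp only
    rw [dif_pos hi]
    have h2 := Int.emod_nonneg (z i) hp.ne'
    rw [Int.toNat_of_nonneg h2]
    have h3 : (2 : ℤ) ^ l ∣ z i % 2 ^ l - z i := by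
      refine ⟨-(z i / 2 ^ l), ?_⟩
      have h4 := Int.mul_ediv_add_emod (z i) (2 ^ l)
      linarith
    exact (pow_dvd_pow 2 (Nat.sub_le _ _)).trans h3

theorem hasCufBase : HasCufBase NK TK := by
  let B : ℕ → U At := fun n => Bs n.unpair.1 n.unpair.2
  refine ⟨U.mk fun n : ℕ => pair (nat n) (B n), ?_, B, fun n y => ?_, fun n => ⟨?_, ?_⟩, ?_⟩
  · refine mem_N.2 ⟨⟨_, H0, fun g hg => ?_⟩, fun y hy => ?_⟩
    · rw [act_mk]
      congr 1
      funext n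
      rw [act_pair, act_nat, act_Bs hg.1]
    · obtain ⟨n, rfl⟩ := mem_mk.1 hy
      exact pair_mem (nat_mem n) (Bs_mem _ _)
  · rw [mem_mk]
    constructor
    · rintro ⟨k, hk⟩
      obtain ⟨h1, rfl⟩ := pair_inj.1 hk
      rw [nat_inj h1]
    · rintro rfl
      exact ⟨n, rfl⟩
  · exact (finIn_iff fun z hz => trans (Bs_mem _ _) hz).2 (Bs_fin _ _)
  · refine ⟨isSet_mk _, fun z hz => ?_⟩
    obtain ⟨y, rfl⟩ := mem_mk.1 hz
    exact cls_TK _ _
  · intro O hO x hx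
    obtain ⟨⟨h1, h2⟩, h3⟩ := mem_TK.1 hO
    obtain ⟨a, rfl⟩ := mem_atoms.1 (h2.2 x hx)
    obtain ⟨l, hl⟩ := h3 a hx
    refine ⟨Nat.pair a.1 l, cls l a, ?_, atom_mem_cls.2 (rel_refl l a), isSet_mk _, fun z hz => ?_⟩
    · change cls l a ∈ Bs (Nat.unpair (Nat.pair a.1 l)).1 (Nat.unpair (Nat.pair a.1 l)).2
      rw [Nat.unpair_pair]
      exact mem_mk.2 ⟨a.2, rfl⟩
    · obtain ⟨b, hb, rfl⟩ := mem_cls.1 hz
      exact hl b hb

/-! ### The metric -/

open Classical in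
/-- The distance. -/
noncomputable def rho (a b : At) : ℝ := if a = b then 0 else (1 / 2) ^ sInf {n | ¬ rel n a b}

theorem exists_not_rel {a b : At} (h : a ≠ b) : ∃ n, ¬ rel n a b := by
  by_contra h1
  push Not at h1
  exact h (rel_eq h1)

theorem le_rho {n : ℕ} {a b : At} (h : ¬ rel n a b) : (1 / 2 : ℝ) ^ n ≤ rho a b := by
  unfold rho
  rw [if_neg (fun h1 : a = b => h (h1 ▸ rel_refl n a))]
  exact pow_le_pow_of_le_one (by norm_num) (by norm_num) (Nat.sInf_le h)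

theorem rho_lt {n : ℕ} {a b : At} (h : rel n a b) : rho a b < (1 / 2 : ℝ) ^ n := by
  unfold rho
  by_cases hab : a = b
  · rw [if_pos hab]
    positivity
  · rw [if_neg hab]
    refine pow_lt_pow_right_of_lt_one₀ (by norm_num) (by norm_num) ?_
    by_contra h1
    exact Nat.sInf_mem (exists_not_rel hab) (rel_mono (not_lt.1 h1) h)

theorem rel_of_lt {n : ℕ} {a b : At} (h : rho a b < (1 / 2 : ℝ) ^ n) : rel n a b := by
  by_contra h1
  exact absurd (le_rho h1) (not_le.2 h)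

theorem rho_nonneg (a b : At) : 0 ≤ rho a b := by
  unfold rho
  split_ifs
  · exact le_rfl
  · positivity

theorem rho_self (a : At) : rho a a = 0 := if_pos rfl

theorem rho_eq_zero {a b : At} : rho a b = 0 ↔ a = b := by
  constructor
  · intro h
    refine rel_eq fun n => rel_of_lt ?_
    rw [h]
    positivity
  · rintro rfl
    exact rho_self a

theorem rho_comm (a b : At) : rho a b = rho b a := by
  unfold rho
  have h1 : {n | ¬ rel n a b} = {n | ¬ rel n b a} := by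
    ext n
    exact not_congr rel_comm
  rw [h1]
  by_cases h : a = b
  · rw [if_pos h, if_pos h.symm]
  · rw [if_neg h, if_neg fun h2 => h h2.symm]

theorem rho_tri (a b c : At) : rho a c ≤ rho a b + rho b c := by
  by_cases h : a = c
  · rw [rho_eq_zero.2 h]
    exact add_nonneg (rho_nonneg _ _) (rho_nonneg _ _)
  · have h1 : ¬ rel (sInf {n | ¬ rel n a c}) a c := Nat.sInf_mem (exists_not_rel h)
    have h2 : rho a c = (1 / 2 : ℝ) ^ sInf {n | ¬ rel n a c} := if_neg h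
    rw [h2]
    by_cases h3 : rel (sInf {n | ¬ rel n a c}) a b
    · have h4 := le_rho fun h4 : rel (sInf {n | ¬ rel n a c}) b c => h1 (rel_trans h3 h4)
      have h5 := rho_nonneg a b
      linarith
    · have h4 := le_rho h3
      have h5 := rho_nonneg b c
      linarith

theorem rho_act {g : Equiv.Perm At} (hg : g ∈ G) (a b : At) : rho (g a) (g b) = rho a b := by
  unfold rho
  have h1 : {n | ¬ rel n (g a) (g b)} = {n | ¬ rel n a b} := by
    ext n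
    exact not_congr (G_rel hg)
  rw [h1]
  by_cases h : a = b
  · rw [if_pos h, if_pos (congrArg g h)]
  · rw [if_neg h, if_neg fun h2 => h (g.injective h2)]

open Classical in
/-- The atom. -/
noncomputable def uat (x : U At) : At := if h : ∃ a, x = U.atom a then h.choose else (0, 0)

theorem uat_atom (a : At) : uat (atom a) = a := by
  unfold uat
  have h : ∃ b, (U.atom a : U At) = U.atom b := ⟨a, rfl⟩
  rw [dif_pos h]
  exact (atom_inj h.choose_spec).symm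

/-- The metric as a set. -/
noncomputable def dK : U At :=
  U.mk fun p : At × At => pair (pair (atom p.1) (atom p.2)) (real (rho p.1 p.2))

theorem dK_mem : dK ∈ NK := by
  refine mem_of (isSet_mk _) (fun y hy => ?_) H0 fun g hg z hz => ?_
  · obtain ⟨p, rfl⟩ := mem_mk.1 hy
    exact pair_mem (pair_mem (atom_mem _) (atom_mem _)) (real_mem _)
  · obtain ⟨p, rfl⟩ := mem_mk.1 hz
    refine mem_mk.2 ⟨(g p.1, g p.2), ?_⟩
    rw [act_pair, act_pair, act_atom, act_atom, act_real, rho_act hg.1]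

theorem pair_dK {a b : At} {z : U At} :
    pair (pair (atom a) (atom b)) z ∈ dK ↔ z = real (rho a b) := by
  rw [dK, mem_mk]
  constructor
  · rintro ⟨⟨a', b'⟩, h⟩
    obtain ⟨h1, rfl⟩ := pair_inj.1 h
    obtain ⟨h2, h3⟩ := pair_inj.1 h1
    rw [atom_inj h2, atom_inj h3]
  · rintro rfl
    exact ⟨(a, b), rfl⟩

end Pool.Agent.R601.KL
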